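import Pool.Agent.Helper21.D2.Stmts
import Pool.Agent.Helper82.AHS.Nd

/-!
# SYM: the symmetry of a polarization of a pure Hodge structure
-/

set_option autoImplicit false

namespace Pool.Agent.Helper21.TH

open Matrix Pool.Agent.Helper82.AHS
open scoped MatrixOrder ComplexOrder

variable {r : ℕ} {V : HS r} {w : ℤ} {Q : Matrix (Fin r) (Fin r) ℚ}

theorem sym_D_add (hw : ∀ i, V.p i + V.q i = w) : V.D + V.Db = (w : ℂ) • 1 := by
  rw [V.Db_eq]
  unfold HS.D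
  rw [← Matrix.add_mul, ← Matrix.mul_add, Matrix.diagonal_add]
  have : (fun i => (V.p i : ℂ) + (V.q i : ℂ)) = fun _ => (w : ℂ) := by
    funext i
    exact_mod_cast hw i
  rw [this, show (diagonal fun _ : Fin r => (w : ℂ)) = (w : ℂ) • (1 : Matrix (Fin r) (Fin r) ℂ) by
    rw [← Matrix.diagonal_one, ← Matrix.diagonal_smul]; congr 1; funext i; simp]
  rw [Matrix.mul_smul, Matrix.mul_one, Matrix.smul_mul, gl_mul_inv]

theorem sym_RR (hw : ∀ i, V.p i + V.q i = w) (hQ : V.Pol Q) (i j : Fin r) :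
    (starRingEnd ℂ) (RR V Q j i) = (-1 : ℂ) ^ w * RR V Q i j := by
  have hh := (MM_posDef hQ).isHermitian
  have h1 : (starRingEnd ℂ) (MM V Q i j) = MM V Q j i := congrFun (congrFun hh j) i
  unfold MM at h1
  rw [Matrix.transpose_apply, Matrix.transpose_apply, diagonal_mul, diagonal_mul, map_mul,
    conj_I_zpow] at h1
  have hI : Complex.I ≠ 0 := Complex.I_ne_zero
  by_cases h0 : RR V Q i j = 0
  · rw [h0, mul_zero] at h1
    rw [h0, mul_zero]
    rcases mul_eq_zero.mp h1 with h2 | h2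
    · exact absurd h2 (zpow_ne_zero _ hI)
    · exact h2
  · obtain ⟨e1, e2⟩ := RR_zero hQ h0
    rw [e1, e2] at h1
    have h3 : (starRingEnd ℂ) (RR V Q j i) =
        Complex.I ^ (V.p j - V.q j) * (Complex.I ^ (V.p j - V.q j) * RR V Q i j) := by
      rw [← h1, ← mul_assoc, ← zpow_add₀ hI, add_neg_cancel, zpow_zero, one_mul]
    rw [h3, ← mul_assoc]
    congr 1
    rw [← mul_zpow, Complex.I_mul_I]
    have h4 : V.p j - V.q j = w - 2 * V.q j := by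
      have := hw j
      omega
    rw [h4, zpow_sub₀ (by norm_num), _root_.zpow_mul]
    norm_num

theorem sym_conj (hw : ∀ i, V.p i + V.q i = w) (hQ : V.Pol Q) :
    (V.P : Matrix (Fin r) (Fin r) ℂ)ᵀ * (Q.map (algebraMap ℚ ℂ))ᵀ *
      (V.P : Matrix (Fin r) (Fin r) ℂ).map (starRingEnd ℂ) =
    (V.P : Matrix (Fin r) (Fin r) ℂ)ᵀ * ((-1 : ℂ) ^ w • Q.map (algebraMap ℚ ℂ)) *
      (V.P : Matrix (Fin r) (Fin r) ℂ).map (starRingEnd ℂ) := by
  have h1 : (RR V Q)ᴴ = (-1 : ℂ) ^ w • RR V Q := by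
    ext i j
    rw [Matrix.conjTranspose_apply, Matrix.smul_apply, smul_eq_mul]
    exact sym_RR hw hQ i j
  have h2 : (RR V Q)ᴴ = (V.P : Matrix (Fin r) (Fin r) ℂ)ᵀ * (Q.map (algebraMap ℚ ℂ))ᵀ *
      (V.P : Matrix (Fin r) (Fin r) ℂ).map (starRingEnd ℂ) := by
    unfold RR
    rw [Matrix.conjTranspose_mul, Matrix.conjTranspose_mul, ← Matrix.mul_assoc]
    have e1 : ((V.P : Matrix (Fin r) (Fin r) ℂ).map (starRingEnd ℂ))ᴴ =
        (V.P : Matrix (Fin r) (Fin r) ℂ)ᵀ := by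
      ext i j
      simp [Matrix.conjTranspose_apply]
    have e2 : (Q.map (algebraMap ℚ ℂ))ᴴ = (Q.map (algebraMap ℚ ℂ))ᵀ := by
      ext i j
      simp [Matrix.conjTranspose_apply]
    have e3 : ((V.P : Matrix (Fin r) (Fin r) ℂ)ᵀ)ᴴ =
        (V.P : Matrix (Fin r) (Fin r) ℂ).map (starRingEnd ℂ) := by
      ext i j
      simp [Matrix.conjTranspose_apply]
    rw [e1, e2, e3]
  rw [← h2, h1]
  unfold RR
  rw [Matrix.mul_smul, Matrix.smul_mul]

theorem sym_tr (hw : ∀ i, V.p i + V.q i = w) (hQ : V.Pol Q) :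
    (Q.map (algebraMap ℚ ℂ))ᵀ = (-1 : ℂ) ^ w • Q.map (algebraMap ℚ ℂ) := by
  have h := sym_conj hw hQ
  have hP1 : ((V.P⁻¹ : GL (Fin r) ℂ) : Matrix (Fin r) (Fin r) ℂ)ᵀ *
      (V.P : Matrix (Fin r) (Fin r) ℂ)ᵀ = 1 := by
    rw [← Matrix.transpose_mul, gl_mul_inv, Matrix.transpose_one]
  have hP2 : (V.P : Matrix (Fin r) (Fin r) ℂ).map (starRingEnd ℂ) *
      ((V.P⁻¹ : GL (Fin r) ℂ) : Matrix (Fin r) (Fin r) ℂ).map (starRingEnd ℂ) = 1 := by
    rw [← Matrix.map_mul, gl_mul_inv, Matrix.map_one _ (map_zero _) (map_one _)]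
  have key : ∀ X : Matrix (Fin r) (Fin r) ℂ,
      ((V.P⁻¹ : GL (Fin r) ℂ) : Matrix (Fin r) (Fin r) ℂ)ᵀ *
        ((V.P : Matrix (Fin r) (Fin r) ℂ)ᵀ * X *
          (V.P : Matrix (Fin r) (Fin r) ℂ).map (starRingEnd ℂ)) *
        ((V.P⁻¹ : GL (Fin r) ℂ) : Matrix (Fin r) (Fin r) ℂ).map (starRingEnd ℂ) = X := by
    intro X
    rw [Matrix.mul_assoc (V.P : Matrix (Fin r) (Fin r) ℂ)ᵀ, ← Matrix.mul_assoc _ _ (X * _), hP1,
      Matrix.one_mul, Matrix.mul_assoc, hP2, Matrix.mul_one]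
  rw [← key (Q.map (algebraMap ℚ ℂ))ᵀ, h, key]

/-- SYM. -/
theorem st_SYM : ST_SYM := by
  intro r V w Q hw hQ
  have hdet : Q.det ≠ 0 := by
    obtain ⟨Qi, h⟩ := exists_Qi hQ
    intro h0
    have := congrArg Matrix.det h
    rw [Matrix.det_mul, h0, zero_mul, Matrix.det_one] at this
    exact zero_ne_one this
  have hinj : Function.Injective (fun X : Matrix (Fin r) (Fin r) ℚ => X.map (algebraMap ℚ ℂ)) :=
    Matrix.map_injective (algebraMap ℚ ℂ).injective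
  have htr := sym_tr hw hQ
  refine ⟨hdet, fun he => hinj ?_, fun ho => hinj ?_, ?_⟩
  · change Qᵀ.map (algebraMap ℚ ℂ) = Q.map (algebraMap ℚ ℂ)
    rw [Matrix.transpose_map, htr, he.neg_one_zpow, one_smul]
  · change Qᵀ.map (algebraMap ℚ ℂ) = (-Q).map (algebraMap ℚ ℂ)
    rw [Matrix.transpose_map, htr, ho.neg_one_zpow]
    ext i j
    simp
  · rw [hQ.rel1, ← Matrix.mul_add, add_comm, sym_D_add hw, Matrix.mul_smul, Matrix.mul_one]

end Pool.Agent.Helper21.TH
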